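import Pool.Agent.helper70.M10.Defs
import Pool.Agent.helper70.M10.If

set_option autoImplicit false

/-! # M10-F2: the parts of the cells -/

open MvPolynomial Set Filter Topology

namespace Oct.N

open Oct
open Oct.N.If

private theorem eval_smul_hom {F : MvPolynomial (Fin 3) ℝ} {d : ℕ} (hF : F.IsHomogeneous d)
    (c : ℝ) (w : Fin 3 → ℝ) : eval (c • w) F = c ^ d * eval w F := by
  have h := F.support_sum_monomial_coeff
  rw [MvPolynomial.eval_eq, MvPolynomial.eval_eq, Finset.mul_sum]
  refine Finset.sum_congr rfl (fun m hm => ?_)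
  have h1 : ∏ i ∈ m.support, (c • w) i ^ m i = c ^ d * ∏ i ∈ m.support, w i ^ m i := by
    have h2 : ∑ i ∈ m.support, m i = d := by
      have := hF (mem_support_iff.1 hm)
      rw [← this]
      simp [Finsupp.weight_apply, Finsupp.sum]
    rw [← h2, ← Finset.prod_pow_eq_pow_sum, ← Finset.prod_mul_distrib]
    refine Finset.prod_congr rfl (fun i _ => ?_)
    rw [Pi.smul_apply, smul_eq_mul, mul_pow]
  rw [h1]
  ring

private theorem has_mul {s : S3} {r x : ℝ} (hr : 0 < r) : s.Has (r * x) ↔ s.Has x := by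
  cases s
  · exact mul_pos_iff_of_pos_left hr
  · show r * x < 0 ↔ x < 0
    constructor
    · intro h
      by_contra hx
      exact absurd h (not_lt.2 (mul_nonneg hr.le (not_lt.1 hx)))
    · intro h
      exact mul_neg_of_pos_of_neg hr h
  · show r * x = 0 ↔ x = 0
    constructor
    · intro h
      exact (mul_eq_zero.1 h).resolve_left hr.ne'
    · intro h
      rw [h, mul_zero]

private theorem sg_ne (b : Bool) : sg b ≠ 0 := by
  cases b <;> simp [sg]

private theorem has_smul {F : MvPolynomial (Fin 3) ℝ} {d : ℕ} (hF : F.IsHomogeneous d)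
    (hd : Even d) {s : S3} {c : ℝ} (hc : c ≠ 0) (w : Fin 3 → ℝ) :
    s.Has (eval (c • w) F) ↔ s.Has (eval w F) := by
  rw [eval_smul_hom hF]
  exact has_mul (hd.pow_pos hc)

/-- the sign `b` and nothing else -/
private theorem has_sg {b : Bool} {x : ℝ} (h : 0 < sg b * x) (s : S3) : s.Has x ↔ s = S3.of b := by
  cases b
  · have hx : x < 0 := by
      simp only [sg] at h
      norm_num at h
      exact h
    cases s
    · simp only [S3.Has, S3.of]
      constructor
      · intro h'; linarith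
      · intro h'; simp at h'
    · simp only [S3.Has, S3.of]
      simp [hx]
    · simp only [S3.Has, S3.of]
      constructor
      · intro h'; linarith
      · intro h'; simp at h'
  · have hx : 0 < x := by
      simp only [sg, if_true, one_mul] at h
      exact h
    cases s
    · simp only [S3.Has, S3.of]
      simp [hx]
    · simp only [S3.Has, S3.of]
      constructor
      · intro h'; linarith
      · intro h'; simp at h'
    · simp only [S3.Has, S3.of]
      constructor
      · intro h'; linarith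
      · intro h'; simp at h'

private theorem col_mem {ct : Cert} {i : ℕ} (hi : i < ct.n) : ct.col i ∈ ct.cols := by
  unfold Cert.col
  unfold Cert.n at hi
  rw [List.getD_eq_getElem _ _ hi]
  exact List.getElem_mem hi

private theorem box_mem {c : Column} {j : ℕ} (hj : j < c.bx.length) : c.box j ∈ c.bx := by
  unfold Column.box
  rw [List.getD_eq_getElem _ _ hj]
  exact List.getElem_mem hj

private theorem icc_ab (c : Column) : Icc (c.a : ℝ) (c.b : ℝ) = Icc (0 : ℝ) 1 := by
  simp [Column.a, Column.b]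

private theorem pt_ne {c : Chart} (hdet : 0 < c.x1 * c.y0 - c.x0 * c.y1) (t u : ℝ) :
    c.pt t u ≠ 0 := by
  intro h
  have h0 : c.vx t = 0 := by
    have := congrFun h 0
    simpa [Chart.pt] using this
  have h1 : c.vy t = 0 := by
    have := congrFun h 1
    simpa [Chart.pt] using this
  unfold Chart.vx at h0
  unfold Chart.vy at h1
  have h2 : (0 : ℝ) < c.x1 * c.y0 - c.x0 * c.y1 := by exact_mod_cast hdet
  have h3 : (c.x1 : ℝ) * c.y0 - c.x0 * c.y1 = c.x1 * (c.y0 + c.y1 * t) - c.y1 * (c.x0 + c.x1 * t) := by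
    ring
  rw [h3, h0, h1] at h2
  simp at h2

private theorem pole_ne (e : Bool) : pole e ≠ 0 := by
  intro h
  have := congrFun h 2
  have h2 : sg (!e) = 0 := by simpa [pole] using this
  exact sg_ne _ h2

private theorem seg_ne {c : Chart} (hdet : 0 < c.x1 * c.y0 - c.x0 * c.y1) (t u s : ℝ) (e : Bool) :
    s • c.pt t u + (1 - s) • pole e ≠ 0 := by
  intro h
  by_cases hs : s = 0
  · rw [hs] at h
    rw [zero_smul, zero_add, sub_zero, one_smul] at h
    exact pole_ne e h
  · have h0 : s * c.vx t = 0 := by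
      have := congrFun h 0
      simpa [Chart.pt, pole] using this
    have h1 : s * c.vy t = 0 := by
      have := congrFun h 1
      simpa [Chart.pt, pole] using this
    have h0' := (mul_eq_zero.1 h0).resolve_left hs
    have h1' := (mul_eq_zero.1 h1).resolve_left hs
    unfold Chart.vx at h0'
    unfold Chart.vy at h1'
    have h2 : (0 : ℝ) < c.x1 * c.y0 - c.x0 * c.y1 := by exact_mod_cast hdet
    have h3 : (c.x1 : ℝ) * c.y0 - c.x0 * c.y1 =
        c.x1 * (c.y0 + c.y1 * t) - c.y1 * (c.x0 + c.x1 * t) := by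
      ring
    rw [h3, h0', h1'] at h2
    simp at h2

private theorem pole_neg (e : Bool) : pole e = sg (!e) • pole false := by
  funext i
  fin_cases i <;> simp [pole, sg]

private theorem evR_cont (l : List ℤ) : Continuous (fun t : ℝ => evR l t) := by
  induction l with
  | nil => exact continuous_const
  | cons a l ih =>
    have : (fun t : ℝ => evR (a :: l) t) = fun t : ℝ => (a : ℝ) + t * evR l t := by
      funext t
      rfl
    rw [this]
    exact continuous_const.add (continuous_id.mul ih)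

private theorem pt_cont (c : Chart) : Continuous (fun p : ℝ × ℝ => c.pt p.1 p.2) := by
  refine continuous_pi (fun i => ?_)
  fin_cases i
  · show Continuous (fun p : ℝ × ℝ => (c.x0 : ℝ) + c.x1 * p.1)
    fun_prop
  · show Continuous (fun p : ℝ × ℝ => (c.y0 : ℝ) + c.y1 * p.1)
    fun_prop
  · show Continuous (fun p : ℝ × ℝ => (c.al : ℝ) * p.2 + evR c.be p.1)
    exact (continuous_const.mul continuous_snd).add ((evR_cont c.be).comp continuous_fst)

/-- connectedness of a cone: parametrisation by a preconnected set -/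
private theorem preconn_of_param {α : Type} [TopologicalSpace α] {A : Set α} (hA : IsPreconnected A)
    {φ : α → Fin 3 → ℝ} (hφ : Continuous φ) {S : Set V3} {c : ℝ} 
    (hS : ∀ v : V3, v ∈ S ↔ ∃ r > 0, ∃ a ∈ A, v.1 = (r * c) • φ a) (hne : ∀ a ∈ A, φ a ≠ 0)
    (hc : c ≠ 0) :
    IsPreconnected S := by
  refine (Topology.IsInducing.isPreconnected_image Topology.IsInducing.subtypeVal).1 ?_
  have h1 : Subtype.val '' S = (fun p : ℝ × α => (p.1 * c) • φ p.2) '' (Ioi 0 ×ˢ A) := by
    ext w
    constructor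
    · rintro ⟨v, hv, rfl⟩
      obtain ⟨r, hr, a, ha, h⟩ := (hS v).1 hv
      exact ⟨(r, a), ⟨hr, ha⟩, h.symm⟩
    · rintro ⟨⟨r, a⟩, ⟨hr, ha⟩, rfl⟩
      have hr' : (0 : ℝ) < r := hr
      refine ⟨⟨(r * c) • φ a, smul_ne_zero (mul_ne_zero hr'.ne' hc) (hne a ha)⟩, ?_, rfl⟩
      exact (hS _).2 ⟨r, hr', a, ha, rfl⟩
  have h2 : IsPreconnected ((fun p : ℝ × α => (p.1 * c) • φ p.2) '' (Ioi 0 ×ˢ A)) := by
    refine IsPreconnected.image (isPreconnected_Ioi.prod hA) _ ?_
    refine Continuous.continuousOn ?_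
    exact (continuous_fst.mul continuous_const).smul (hφ.comp continuous_snd)
  exact h1 ▸ h2

section F
variable {ct : Cert} (h : Comb ct) {F : MvPolynomial (Fin 3) ℝ} {d : ℕ}

private theorem top_sign (ha : AnaOK F ct.sp ct.cols) {i : ℕ} (hi : i < ct.n) {t s : ℝ}
    (ht : t ∈ Icc ((ct.col i).a : ℝ) (ct.col i).b) (hs : s ∈ Icc (0 : ℝ) 1) :
    0 < sg ct.sp * eval (s • ((ct.col i).cb (ct.col i).lb).pt t (ct.col i).lb.hi +
      (1 - s) • pole false) F := by
  rw [icc_ab] at ht
  have h1 := (ha _ (col_mem hi)).1 t ht s hs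
  rw [map_mul, eval_C, eval_pullEnd] at h1
  exact h1

private theorem bot_sign (ha : AnaOK F ct.sp ct.cols) {i : ℕ} (hi : i < ct.n) {t s : ℝ}
    (ht : t ∈ Icc ((ct.col i).a : ℝ) (ct.col i).b) (hs : s ∈ Icc (0 : ℝ) 1) :
    0 < sg ct.sp * eval (s • ((ct.col i).cb (ct.col i).fb).pt t (ct.col i).fb.lo +
      (1 - s) • pole true) F := by
  rw [icc_ab] at ht
  have h1 := (ha _ (col_mem hi)).2.1 t ht s hs
  rw [map_mul, eval_C, eval_pullEnd] at h1
  exact h1

private theorem a_mem (c : Column) : (c.a : ℝ) ∈ Icc (c.a : ℝ) c.b := by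
  refine ⟨le_refl _, ?_⟩
  simp [Column.a, Column.b]

include h

private theorem pole_sign (ha : AnaOK F ct.sp ct.cols) : 0 < sg ct.sp * eval (pole false) F := by
  have h1 := top_sign ha h.pos_n (a_mem _) (s := 0) ⟨le_refl _, zero_le_one⟩
  simpa using h1

/-- all the signs on a cell -/
theorem cell_act (hF : F.IsHomogeneous d) (hd : Even d) (ha : AnaOK F ct.sp ct.cols)
    (c : Cell) (hc : ct.Valid c) (s : S3) :
    (ct.K c ∩ {x | s.Has (fV F x)}).Nonempty ↔ ct.Act c s := by
  cases c with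
  | box l i j =>
    obtain ⟨hi, hj⟩ := hc
    have hcol := col_mem hi
    have hbox := box_mem hj
    obtain ⟨c3, c4, c5, c6⟩ := h.colR _ hcol
    have key := box_act ((ha _ hcol).2.2 _ hbox) (h.boxS _ hcol _ hbox).1 s
    have hdet : 0 < ((ct.col i).cb ((ct.col i).box j)).x1 * ((ct.col i).cb ((ct.col i).box j)).y0 -
      ((ct.col i).cb ((ct.col i).box j)).x0 * ((ct.col i).cb ((ct.col i).box j)).y1 := c3
    show _ ↔ ((ct.col i).box j).Act s
    rw [← key]
    constructor
    · rintro ⟨v, ⟨r, hr, t, ht, u, hu, hv⟩, hs⟩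
      refine ⟨t, (icc_ab (ct.col i)) ▸ ht, u, hu, ?_⟩
      have hs' : s.Has (eval v.1 F) := hs
      rw [hv, has_smul hF hd (mul_ne_zero hr.ne' (sg_ne _))] at hs'
      exact hs'
    · rintro ⟨t, ht, u, hu, hs⟩
      refine ⟨⟨((1 : ℝ) * sg (!l)) • ((ct.col i).cb ((ct.col i).box j)).pt t u,
        smul_ne_zero (mul_ne_zero one_ne_zero (sg_ne _)) (pt_ne hdet t u)⟩, ⟨1, one_pos, t,
        (icc_ab (ct.col i)).symm ▸ ht, u, hu, rfl⟩, ?_⟩
      show s.Has (eval (((1 : ℝ) * sg (!l)) • ((ct.col i).cb ((ct.col i).box j)).pt t u) F)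
      rw [has_smul hF hd (mul_ne_zero one_ne_zero (sg_ne _))]
      exact hs
  | top l i =>
    have hi : i < ct.n := hc
    have hcol := col_mem hi
    obtain ⟨c3, c4, c5, c6⟩ := h.colR _ hcol
    have hdet : 0 < ((ct.col i).cb (ct.col i).lb).x1 * ((ct.col i).cb (ct.col i).lb).y0 -
      ((ct.col i).cb (ct.col i).lb).x0 * ((ct.col i).cb (ct.col i).lb).y1 := c3
    show _ ↔ s = S3.of ct.sp
    constructor
    · rintro ⟨v, ⟨r, hr, t, ht, u, hu, hv⟩, hs⟩
      have hs' : s.Has (eval v.1 F) := hs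
      rw [hv, has_smul hF hd (mul_ne_zero hr.ne' (sg_ne _)),
        has_sg (top_sign ha hi ht hu)] at hs'
      exact hs'
    · intro hs
      have h1 := top_sign ha hi (a_mem _) (s := 1) ⟨zero_le_one, le_refl _⟩
      refine ⟨⟨((1 : ℝ) * sg (!l)) • ((1 : ℝ) • ((ct.col i).cb (ct.col i).lb).pt (ct.col i).a
          (ct.col i).lb.hi + (1 - 1 : ℝ) • pole false),
        smul_ne_zero (mul_ne_zero one_ne_zero (sg_ne _)) ?_⟩, ⟨1, one_pos, _, a_mem _, 1,
          ⟨zero_le_one, le_refl _⟩, rfl⟩, ?_⟩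
      · rw [one_smul, sub_self, zero_smul, add_zero]
        exact pt_ne hdet _ _
      · show s.Has (eval (((1 : ℝ) * sg (!l)) •
          ((1 : ℝ) • ((ct.col i).cb (ct.col i).lb).pt (ct.col i).a (ct.col i).lb.hi +
            (1 - 1 : ℝ) • pole false)) F)
        rw [has_smul hF hd (mul_ne_zero one_ne_zero (sg_ne _)), has_sg h1]
        exact hs
  | bot l i =>
    have hi : i < ct.n := hc
    have hcol := col_mem hi
    obtain ⟨c3, c4, c5, c6⟩ := h.colR _ hcol
    have hdet : 0 < ((ct.col i).cb (ct.col i).fb).x1 * ((ct.col i).cb (ct.col i).fb).y0 -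
      ((ct.col i).cb (ct.col i).fb).x0 * ((ct.col i).cb (ct.col i).fb).y1 := c3
    show _ ↔ s = S3.of ct.sp
    constructor
    · rintro ⟨v, ⟨r, hr, t, ht, u, hu, hv⟩, hs⟩
      have hs' : s.Has (eval v.1 F) := hs
      rw [hv, has_smul hF hd (mul_ne_zero hr.ne' (sg_ne _)),
        has_sg (bot_sign ha hi ht hu)] at hs'
      exact hs'
    · intro hs
      have h1 := bot_sign ha hi (a_mem _) (s := 1) ⟨zero_le_one, le_refl _⟩
      refine ⟨⟨((1 : ℝ) * sg (!l)) • ((1 : ℝ) • ((ct.col i).cb (ct.col i).fb).pt (ct.col i).a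
          (ct.col i).fb.lo + (1 - 1 : ℝ) • pole true),
        smul_ne_zero (mul_ne_zero one_ne_zero (sg_ne _)) ?_⟩, ⟨1, one_pos, _, a_mem _, 1,
          ⟨zero_le_one, le_refl _⟩, rfl⟩, ?_⟩
      · rw [one_smul, sub_self, zero_smul, add_zero]
        exact pt_ne hdet _ _
      · show s.Has (eval (((1 : ℝ) * sg (!l)) •
          ((1 : ℝ) • ((ct.col i).cb (ct.col i).fb).pt (ct.col i).a (ct.col i).fb.lo +
            (1 - 1 : ℝ) • pole true)) F)
        rw [has_smul hF hd (mul_ne_zero one_ne_zero (sg_ne _)), has_sg h1]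
        exact hs
  | pole l =>
    show _ ↔ s = S3.of ct.sp
    have h1 := pole_sign h ha
    constructor
    · rintro ⟨v, ⟨r, hr, hv⟩, hs⟩
      have hs' : s.Has (eval v.1 F) := hs
      rw [hv, pole_neg, smul_smul, has_smul hF hd (mul_ne_zero hr.ne' (sg_ne _)), has_sg h1] at hs'
      exact hs'
    · intro hs
      refine ⟨⟨(1 : ℝ) • pole l, smul_ne_zero one_ne_zero (pole_ne l)⟩, ⟨1, one_pos, rfl⟩, ?_⟩
      show s.Has (eval ((1 : ℝ) • pole l) F)
      rw [pole_neg, smul_smul, has_smul hF hd (mul_ne_zero one_ne_zero (sg_ne _)), has_sg h1]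
      exact hs

theorem cell_part (hF : F.IsHomogeneous d) (hd : Even d) (ha : AnaOK F ct.sp ct.cols)
    (c : Cell) (hc : ct.Valid c) (s : S3) :
    IsPreconnected (ct.K c ∩ {x | s.Has (fV F x)}) := by
  cases c with
  | box l i j =>
    obtain ⟨hi, hj⟩ := hc
    have hcol := col_mem hi
    have hbox := box_mem hj
    obtain ⟨c3, c4, c5, c6⟩ := h.colR _ hcol
    have hdet : 0 < ((ct.col i).cb ((ct.col i).box j)).x1 * ((ct.col i).cb ((ct.col i).box j)).y0 -
      ((ct.col i).cb ((ct.col i).box j)).x0 * ((ct.col i).cb ((ct.col i).box j)).y1 := c3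
    have key := box_conn ((ha _ hcol).2.2 _ hbox) (h.boxS _ hcol _ hbox).1 s
    refine preconn_of_param key (pt_cont ((ct.col i).cb ((ct.col i).box j))) (c := sg (!l))
      (fun v => ?_) (fun a _ => pt_ne hdet _ _) (sg_ne _)
    constructor
    · rintro ⟨⟨r, hr, t, ht, u, hu, hv⟩, hs⟩
      refine ⟨r, hr, (t, u), ⟨(icc_ab (ct.col i)) ▸ ht, hu, ?_⟩, hv⟩
      have hs' : s.Has (eval v.1 F) := hs
      rw [hv, has_smul hF hd (mul_ne_zero hr.ne' (sg_ne _))] at hs'
      exact hs'
    · rintro ⟨r, hr, ⟨t, u⟩, ⟨ht, hu, hs⟩, hv⟩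
      refine ⟨⟨r, hr, t, (icc_ab (ct.col i)).symm ▸ ht, u, hu, hv⟩, ?_⟩
      show s.Has (eval v.1 F)
      rw [hv, has_smul hF hd (mul_ne_zero hr.ne' (sg_ne _))]
      exact hs
  | top l i =>
    have hi : i < ct.n := hc
    have hcol := col_mem hi
    obtain ⟨c3, c4, c5, c6⟩ := h.colR _ hcol
    have hdet : 0 < ((ct.col i).cb (ct.col i).lb).x1 * ((ct.col i).cb (ct.col i).lb).y0 -
      ((ct.col i).cb (ct.col i).lb).x0 * ((ct.col i).cb (ct.col i).lb).y1 := c3
    by_cases hss : s = S3.of ct.sp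
    · have hA : IsPreconnected (Icc ((ct.col i).a : ℝ) (ct.col i).b ×ˢ Icc (0 : ℝ) 1) :=
        isPreconnected_Icc.prod isPreconnected_Icc
      have hφ : Continuous (fun p : ℝ × ℝ =>
          p.2 • ((ct.col i).cb (ct.col i).lb).pt p.1 (ct.col i).lb.hi +
          (1 - p.2) • pole false) := by
        refine Continuous.add (continuous_snd.smul ?_)
          ((continuous_const.sub continuous_snd).smul continuous_const)
        exact (pt_cont ((ct.col i).cb (ct.col i).lb)).comp
          (continuous_fst.prodMk continuous_const)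
      refine preconn_of_param hA hφ (c := sg (!l)) (fun v => ?_) (fun a _ => seg_ne hdet _ _ _ _)
        (sg_ne _)
      constructor
      · rintro ⟨⟨r, hr, t, ht, u, hu, hv⟩, hs⟩
        exact ⟨r, hr, (t, u), ⟨ht, hu⟩, hv⟩
      · rintro ⟨r, hr, ⟨t, u⟩, ⟨ht, hu⟩, hv⟩
        refine ⟨⟨r, hr, t, ht, u, hu, hv⟩, ?_⟩
        show s.Has (eval v.1 F)
        rw [hv, has_smul hF hd (mul_ne_zero hr.ne' (sg_ne _)), has_sg (top_sign ha hi ht hu)]
        exact hss
    · have hempty : ct.K (Cell.top l i) ∩ {x | s.Has (fV F x)} = ∅ := by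
        rw [← Set.not_nonempty_iff_eq_empty, cell_act h hF hd ha (Cell.top l i) hc s]
        exact hss
      rw [hempty]
      exact isPreconnected_empty
  | bot l i =>
    have hi : i < ct.n := hc
    have hcol := col_mem hi
    obtain ⟨c3, c4, c5, c6⟩ := h.colR _ hcol
    have hdet : 0 < ((ct.col i).cb (ct.col i).fb).x1 * ((ct.col i).cb (ct.col i).fb).y0 -
      ((ct.col i).cb (ct.col i).fb).x0 * ((ct.col i).cb (ct.col i).fb).y1 := c3
    by_cases hss : s = S3.of ct.sp
    · have hA : IsPreconnected (Icc ((ct.col i).a : ℝ) (ct.col i).b ×ˢ Icc (0 : ℝ) 1) :=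
        isPreconnected_Icc.prod isPreconnected_Icc
      have hφ : Continuous (fun p : ℝ × ℝ =>
          p.2 • ((ct.col i).cb (ct.col i).fb).pt p.1 (ct.col i).fb.lo +
          (1 - p.2) • pole true) := by
        refine Continuous.add (continuous_snd.smul ?_)
          ((continuous_const.sub continuous_snd).smul continuous_const)
        exact (pt_cont ((ct.col i).cb (ct.col i).fb)).comp
          (continuous_fst.prodMk continuous_const)
      refine preconn_of_param hA hφ (c := sg (!l)) (fun v => ?_) (fun a _ => seg_ne hdet _ _ _ _)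
        (sg_ne _)
      constructor
      · rintro ⟨⟨r, hr, t, ht, u, hu, hv⟩, hs⟩
        exact ⟨r, hr, (t, u), ⟨ht, hu⟩, hv⟩
      · rintro ⟨r, hr, ⟨t, u⟩, ⟨ht, hu⟩, hv⟩
        refine ⟨⟨r, hr, t, ht, u, hu, hv⟩, ?_⟩
        show s.Has (eval v.1 F)
        rw [hv, has_smul hF hd (mul_ne_zero hr.ne' (sg_ne _)), has_sg (bot_sign ha hi ht hu)]
        exact hss
    · have hempty : ct.K (Cell.bot l i) ∩ {x | s.Has (fV F x)} = ∅ := by
        rw [← Set.not_nonempty_iff_eq_empty, cell_act h hF hd ha (Cell.bot l i) hc s]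
        exact hss
      rw [hempty]
      exact isPreconnected_empty
  | pole l =>
    by_cases hss : s = S3.of ct.sp
    · refine preconn_of_param (A := (univ : Set Unit)) isPreconnected_univ
        (φ := fun _ => pole l) continuous_const (c := 1) (fun v => ?_) (fun a _ => pole_ne l)
        one_ne_zero
      constructor
      · rintro ⟨⟨r, hr, hv⟩, hs⟩
        exact ⟨r, hr, (), trivial, by rw [mul_one]; exact hv⟩
      · rintro ⟨r, hr, _, _, hv⟩
        rw [mul_one] at hv
        refine ⟨⟨r, hr, hv⟩, ?_⟩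
        show s.Has (eval v.1 F)
        rw [hv, pole_neg, smul_smul, has_smul hF hd (mul_ne_zero hr.ne' (sg_ne _)),
          has_sg (pole_sign h ha)]
        exact hss
    · have hempty : ct.K (Cell.pole l) ∩ {x | s.Has (fV F x)} = ∅ := by
        rw [← Set.not_nonempty_iff_eq_empty, cell_act h hF hd ha (Cell.pole l) hc s]
        exact hss
      rw [hempty]
      exact isPreconnected_empty

end F

end Oct.N
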